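import Pool.Agent.W207.PR.A0

/-! # Many test functions (S_TEST) -/

set_option autoImplicit false

open Filter Topology Set MeasureTheory
open scoped BigOperators FourierTransform Convolution ContDiff

namespace Pool.Agent.W613.PR

open W207.PR

/-! ### Smoothness of the Hadamard quotient -/

noncomputable def Q (j : ℕ) (F : ℝ → ℝ) (x : ℝ) : ℝ := ∫ s in (0 : ℝ)..1, s ^ j * F (s * x)

theorem hasDerivAt_Q (F : ℝ → ℝ) (hF : ContDiff ℝ ∞ F) (hc : HasCompactSupport F) (j : ℕ)
    (x : ℝ) : HasDerivAt (Q j F) (Q (j + 1) (deriv F) x) x := by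
  have hF1 : Differentiable ℝ F := hF.differentiable (by simp)
  have hF' : Continuous (deriv F) := hF.continuous_deriv (by simp)
  obtain ⟨C, hC⟩ := hF'.bounded_above_of_compact_support hc.deriv
  have hFc : Continuous F := hF.continuous
  have key := intervalIntegral.hasDerivAt_integral_of_dominated_loc_of_deriv_le
    (μ := volume) (a := 0) (b := 1) (bound := fun _ => C)
    (F := fun (x : ℝ) (s : ℝ) => s ^ j * F (s * x))
    (F' := fun (x : ℝ) (s : ℝ) => s ^ (j + 1) * deriv F (s * x)) (x₀ := x) (s := univ)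
    univ_mem
    (Eventually.of_forall fun y => (by fun_prop : Continuous fun s : ℝ =>
      s ^ j * F (s * y)).aestronglyMeasurable)
    ((by fun_prop : Continuous fun s : ℝ => s ^ j * F (s * x)).intervalIntegrable _ _)
    ((by fun_prop : Continuous fun s : ℝ =>
      s ^ (j + 1) * deriv F (s * x)).aestronglyMeasurable)
    (Eventually.of_forall fun s hs y _ => by
      rw [uIoc_of_le zero_le_one] at hs
      rw [norm_mul, norm_pow, Real.norm_of_nonneg hs.1.le]
      have h1 : s ^ (j + 1) ≤ 1 := pow_le_one₀ hs.1.le hs.2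
      have h2 := hC (s * y)
      have h3 : 0 ≤ s ^ (j + 1) := pow_nonneg hs.1.le _
      have h4 := norm_nonneg (deriv F (s * y))
      nlinarith)
    (by simp)
    (Eventually.of_forall fun s _ y _ => by
      have h1 : HasDerivAt (fun y : ℝ => s * y) s y := by
        simpa using (hasDerivAt_id y).const_mul s
      have h2 := (hF1 (s * y)).hasDerivAt.comp y h1
      have h3 := h2.const_mul (s ^ j)
      convert! h3 using 1
      ring)
  exact key.2

theorem contDiff_Q (n : ℕ) : ∀ (F : ℝ → ℝ), ContDiff ℝ ∞ F → HasCompactSupport F → ∀ j : ℕ,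
    ContDiff ℝ n (Q j F) := by
  induction n with
  | zero =>
    intro F hF hc j
    rw [Nat.cast_zero, contDiff_zero]
    exact (show Differentiable ℝ (Q j F) from
      fun x => (hasDerivAt_Q F hF hc j x).differentiableAt).continuous
  | succ n ih =>
    intro F hF hc j
    rw [Nat.cast_succ, contDiff_succ_iff_deriv]
    refine ⟨fun x => (hasDerivAt_Q F hF hc j x).differentiableAt, fun h => ?_, ?_⟩
    · exact absurd h (by simp)
    · have : deriv (Q j F) = Q (j + 1) (deriv F) :=
        funext fun x => (hasDerivAt_Q F hF hc j x).deriv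
      rw [this]
      exact ih (deriv F) (contDiff_infty_iff_deriv.1 hF).2 hc.deriv (j + 1)

/-! ### Fourier transforms of real functions -/

theorem fourier_ofReal (f : ℝ → ℝ) (hf : Continuous f) (hc : HasCompactSupport f) (u : ℝ) :
    𝓕 (fun x : ℝ => (f x : ℂ)) u =
      ((∫ v : ℝ, f v * Real.cos (2 * Real.pi * v * u) : ℝ) : ℂ) -
        ((∫ v : ℝ, f v * Real.sin (2 * Real.pi * v * u) : ℝ) : ℂ) * Complex.I := by
  rw [Real.fourier_real_eq_integral_exp_smul]
  have e : ∀ v : ℝ, Complex.exp (↑(-2 * Real.pi * v * u) * Complex.I) • (f v : ℂ) =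
      ((f v * Real.cos (2 * Real.pi * v * u) : ℝ) : ℂ) -
        ((f v * Real.sin (2 * Real.pi * v * u) : ℝ) : ℂ) * Complex.I := by
    intro v
    rw [show -2 * Real.pi * v * u = -(2 * Real.pi * v * u) by ring, Complex.exp_mul_I,
      ← Complex.ofReal_cos, ← Complex.ofReal_sin, Real.cos_neg, Real.sin_neg, smul_eq_mul]
    push_cast
    ring
  simp_rw [e]
  have h1 : Integrable (fun v : ℝ => f v * Real.cos (2 * Real.pi * v * u)) := by
    refine Continuous.integrable_of_hasCompactSupport (by fun_prop) hc.mul_right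
  have h2 : Integrable (fun v : ℝ => f v * Real.sin (2 * Real.pi * v * u)) := by
    refine Continuous.integrable_of_hasCompactSupport (by fun_prop) hc.mul_right
  rw [integral_sub h1.ofReal (h2.ofReal.mul_const _), integral_mul_const, integral_complex_ofReal,
    integral_complex_ofReal]

theorem sin_even (f : ℝ → ℝ) (hf : ∀ x, f (-x) = f x) (u : ℝ) :
    ∫ v : ℝ, f v * Real.sin (2 * Real.pi * v * u) = 0 := by
  have h := integral_neg_eq_self (fun v : ℝ => f v * Real.sin (2 * Real.pi * v * u)) volume
  have h2 : ∀ v : ℝ, f (-v) * Real.sin (2 * Real.pi * (-v) * u) =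
      -(f v * Real.sin (2 * Real.pi * v * u)) := by
    intro v
    rw [hf, show 2 * Real.pi * (-v) * u = -(2 * Real.pi * v * u) by ring, Real.sin_neg]
    ring
  simp_rw [h2] at h
  rw [integral_neg] at h
  linarith

theorem iteratedDeriv_ofReal (f : ℝ → ℝ) (hf : ContDiff ℝ ∞ f) (n : ℕ) :
    iteratedDeriv n (fun x : ℝ => (f x : ℂ)) = fun x : ℝ => ((iteratedDeriv n f x : ℝ) : ℂ) := by
  induction n with
  | zero => simp
  | succ n ih =>
    rw [iteratedDeriv_succ, ih]
    funext x
    have h1 : DifferentiableAt ℝ (iteratedDeriv n f) x :=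
      (hf.differentiable_iteratedDeriv n (by exact_mod_cast ENat.natCast_lt_top n)) x
    have h2 := h1.hasDerivAt.ofReal_comp
    rw [h2.deriv, iteratedDeriv_succ]

theorem hasCompactSupport_iteratedDeriv (f : ℝ → ℝ) (hf : HasCompactSupport f) (n : ℕ) :
    HasCompactSupport (iteratedDeriv n f) := by
  induction n with
  | zero => simpa using hf
  | succ n ih =>
    rw [iteratedDeriv_succ]
    exact ih.deriv

theorem contDiff_iteratedDeriv (f : ℝ → ℝ) (hf : ContDiff ℝ ∞ f) (n : ℕ) :
    ContDiff ℝ ∞ (iteratedDeriv n f) := by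
  induction n with
  | zero => simpa using hf
  | succ n ih =>
    rw [iteratedDeriv_succ]
    exact (contDiff_infty_iff_deriv.1 ih).2

theorem iteratedDeriv_support (f : ℝ → ℝ) (a : ℝ) (hf : ∀ x, a ≤ |x| → f x = 0) (n : ℕ) :
    ∀ x, a < |x| → iteratedDeriv n f x = 0 := by
  induction n with
  | zero =>
    intro x hx
    rw [iteratedDeriv_zero]
    exact hf x hx.le
  | succ n ih =>
    intro x hx
    rw [iteratedDeriv_succ]
    have hop : {y : ℝ | a < |y|} ∈ 𝓝 x := (isOpen_lt continuous_const continuous_abs).mem_nhds hx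
    have h1 : iteratedDeriv n f =ᶠ[𝓝 x] fun _ => (0 : ℝ) :=
      Filter.eventually_of_mem hop fun y hy => ih y hy
    rw [h1.deriv_eq, deriv_const]

theorem iteratedDeriv_parity (f : ℝ → ℝ) (hf : ∀ x, f (-x) = f x) (n : ℕ) (x : ℝ) :
    iteratedDeriv n f (-x) = (-1) ^ n * iteratedDeriv n f x := by
  have h := iteratedDeriv_comp_neg n f x
  simp_rw [hf] at h
  rw [h, smul_eq_mul, ← mul_assoc, ← mul_pow]
  simp

theorem test : S_TEST := by
  intro U hU
  -- the bump function
  set η : ℝ := min (1 / 8) (1 / (6 * U)) with hη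
  have hη0 : 0 < η := lt_min (by norm_num) (by positivity)
  have hη1 : η ≤ 1 / 8 := min_le_left _ _
  have hη2 : η * U ≤ 1 / 6 := by
    have : η ≤ 1 / (6 * U) := min_le_right _ _
    calc η * U ≤ 1 / (6 * U) * U := mul_le_mul_of_nonneg_right this hU.le
      _ = 1 / 6 := by field_simp
  let bp : ContDiffBump (0 : ℝ) := ⟨η / 2, η, by positivity, by linarith⟩
  set b : ℝ → ℝ := bp.normed volume with hb
  have hbs : ContDiff ℝ ∞ b := bp.contDiff_normed
  have hbc : Continuous b := bp.continuous_normed
  have hbk : HasCompactSupport b := bp.hasCompactSupport_normed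
  have hbe : ∀ x, b (-x) = b x := bp.normed_neg
  have hb0 : ∀ x, 0 ≤ b x := bp.nonneg_normed
  have hb1 : ∫ x, b x = 1 := bp.integral_normed
  have hbi : Integrable b := hbc.integrable_of_hasCompactSupport hbk
  have hbz : ∀ x, η ≤ |x| → b x = 0 := by
    intro x hx
    by_contra hne
    have : x ∈ Function.support b := hne
    rw [hb, bp.support_normed_eq, Metric.mem_ball, dist_zero_right, Real.norm_eq_abs] at this
    exact absurd this (not_lt.2 hx)
  -- the transform of b
  set g : ℝ → ℝ := fun u => ∫ v : ℝ, b v * Real.cos (2 * Real.pi * v * u) with hg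
  have hgi : ∀ u, Integrable (fun v : ℝ => b v * Real.cos (2 * Real.pi * v * u)) := fun u =>
    Continuous.integrable_of_hasCompactSupport (by fun_prop) hbk.mul_right
  have hg1 : ∀ u, |g u| ≤ 1 := by
    intro u
    calc |g u| ≤ ∫ v : ℝ, |b v * Real.cos (2 * Real.pi * v * u)| := abs_integral_le_integral_abs
      _ ≤ ∫ v : ℝ, b v := by
        refine integral_mono (hgi u).abs hbi fun v => ?_
        dsimp only
        rw [abs_mul, abs_of_nonneg (hb0 v)]
        exact mul_le_of_le_one_right (hb0 v) (Real.abs_cos_le_one _)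
      _ = 1 := hb1
  have hg2 : ∀ u, |u| ≤ U → 1 / 2 ≤ g u := by
    intro u hu
    calc (1 : ℝ) / 2 = ∫ v : ℝ, b v * (1 / 2) := by rw [integral_mul_const, hb1, one_mul]
      _ ≤ ∫ v : ℝ, b v * Real.cos (2 * Real.pi * v * u) := by
        refine integral_mono (hbi.mul_const _) (hgi u) fun v => ?_
        dsimp only
        by_cases hv : η ≤ |v|
        · rw [hbz v hv]
          simp
        · push Not at hv
          refine mul_le_mul_of_nonneg_left ?_ (hb0 v)
          rw [← Real.cos_abs (2 * Real.pi * v * u), ← Real.cos_pi_div_three]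
          have h1 : |2 * Real.pi * v * u| ≤ Real.pi / 3 := by
            rw [abs_mul, abs_mul, abs_of_pos (by positivity : (0 : ℝ) < 2 * Real.pi)]
            have h2 : |v| * |u| ≤ 1 / 6 :=
              (mul_le_mul hv.le hu (abs_nonneg _) hη0.le).trans hη2
            calc 2 * Real.pi * |v| * |u| = 2 * Real.pi * (|v| * |u|) := by ring
              _ ≤ 2 * Real.pi * (1 / 6) := mul_le_mul_of_nonneg_left h2 (by positivity)
              _ = Real.pi / 3 := by ring
          exact Real.cos_le_cos_of_nonneg_of_le_pi (abs_nonneg _)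
            (by linarith [Real.pi_pos]) h1
  -- the convolution square
  set B : ℝ → ℝ := b ⋆[ContinuousLinearMap.mul ℝ ℝ] b with hB
  have hBs : ContDiff ℝ ∞ B :=
    hbk.contDiff_convolution_right _ hbc.locallyIntegrable hbs
  have hBk : HasCompactSupport B := hbk.convolution _ hbk
  have hBc : Continuous B := hBs.continuous
  have hBv : ∀ x, B x = ∫ t, b t * b (x - t) := fun x => rfl
  have hBe : ∀ x, B (-x) = B x := by
    intro x
    rw [hBv, hBv, ← integral_neg_eq_self (fun t => b t * b (-x - t)) volume]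
    refine integral_congr_ae (Eventually.of_forall fun t => ?_)
    dsimp only
    rw [hbe, ← hbe (x - t)]
    congr 2
    ring
  have hBz : ∀ x, 1 / 4 ≤ |x| → B x = 0 := by
    intro x hx
    rw [hBv]
    rw [show (fun t => b t * b (x - t)) = fun _ => (0 : ℝ) from ?_, integral_zero]
    funext t
    by_cases ht : η ≤ |t|
    · rw [hbz t ht, zero_mul]
    · push Not at ht
      have h1 : η ≤ |x - t| := by
        have := abs_sub_abs_le_abs_sub x t
        linarith
      rw [hbz _ h1, mul_zero]
  -- transforms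
  have hFb : ∀ u, 𝓕 (fun x : ℝ => (b x : ℂ)) u = (g u : ℂ) := by
    intro u
    rw [fourier_ofReal b hbc hbk u, sin_even b hbe u]
    simp [hg]
  have hFB : ∀ u, 𝓕 (fun x : ℝ => (B x : ℂ)) u = ((g u ^ 2 : ℝ) : ℂ) := by
    intro u
    have e : (fun x : ℝ => (B x : ℂ)) =
        (fun x : ℝ => (b x : ℂ)) ⋆[ContinuousLinearMap.mul ℂ ℂ] (fun x : ℝ => (b x : ℂ)) := by
      funext x
      rw [hBv]
      change ((∫ (t : ℝ), b t * b (x - t) : ℝ) : ℂ) = ∫ t : ℝ, (b t : ℂ) * (b (x - t) : ℂ)
      rw [← integral_complex_ofReal]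
      refine integral_congr_ae (Eventually.of_forall fun t => ?_)
      simp
    rw [e]
    refine (Real.fourier_bilin_convolution_eq (ContinuousLinearMap.mul ℂ ℂ) hbi.ofReal hbi.ofReal
      u).trans ?_
    rw [ContinuousLinearMap.mul_apply']
    refine (congrArg₂ (· * ·) (hFb u) (hFb u)).trans ?_
    push_cast
    ring
  have hint : ∀ n : ℕ, Integrable (iteratedDeriv n (fun x : ℝ => (B x : ℂ))) := by
    intro n
    rw [iteratedDeriv_ofReal B hBs n]
    exact ((contDiff_iteratedDeriv B hBs n).continuous.integrable_of_hasCompactSupport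
      (hasCompactSupport_iteratedDeriv B hBk n)).ofReal
  have hBsC : ContDiff ℝ ∞ (fun x : ℝ => (B x : ℂ)) := Complex.ofRealCLM.contDiff.comp hBs
  have hBkC : HasCompactSupport (fun x : ℝ => (B x : ℂ)) :=
    hBk.comp_left (g := fun x : ℝ => (x : ℂ)) (by simp)
  set S : SchwartzMap ℝ ℂ := 𝓕 (hBkC.toSchwartzMap hBsC) with hS
  have hSv : ∀ u, S u = ((g u ^ 2 : ℝ) : ℂ) := by
    intro u
    rw [hS, SchwartzMap.fourier_coe, ← hFB u]
    rfl
  refine ⟨fun u => g u ^ 2, ?_, ?_, ?_, ?_, ?_⟩
  · -- continuity
    have h1 : Continuous (fun u => (S u).re) := Complex.continuous_re.comp S.continuous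
    simp_rw [hSv, Complex.ofReal_re] at h1
    exact h1
  · intro u
    refine ⟨by positivity, ?_⟩
    have h1 := hg1 u
    rw [abs_le] at h1
    nlinarith [h1.1, h1.2]
  · intro u hu
    have h1 := hg2 u hu
    nlinarith
  · -- decay
    intro n
    refine ⟨?_, fun u => ?_⟩
    · exact 2 ^ n * (Finset.Iic ((n, 0) : ℕ × ℕ)).sup
        (fun m => SchwartzMap.seminorm ℝ m.1 m.2) S
    · have h1 := SchwartzMap.one_add_le_sup_seminorm_apply (𝕜 := ℝ) (m := (n, 0)) (k := n)
        (n := 0) le_rfl le_rfl S u
      have h2 : ‖S u‖ = g u ^ 2 := by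
        rw [hSv, Complex.norm_real, Real.norm_of_nonneg (sq_nonneg _)]
      rw [norm_iteratedFDeriv_zero, h2, Real.norm_eq_abs, mul_comm] at h1
      exact h1
  · intro k
    set D : ℝ → ℝ := iteratedDeriv (2 * k + 1) B with hD
    have hDs : ContDiff ℝ ∞ D := contDiff_iteratedDeriv B hBs _
    have hDk : HasCompactSupport D := hasCompactSupport_iteratedDeriv B hBk _
    have hDp : ∀ x, D (-x) = -D x := by
      intro x
      rw [hD, iteratedDeriv_parity B hBe]
      rw [show (-1 : ℝ) ^ (2 * k + 1) = -1 by rw [pow_succ, pow_mul]; simp]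
      ring
    have hD0 : D 0 = 0 := by
      have := hDp 0
      rw [neg_zero] at this
      linarith
    have hD's : ContDiff ℝ ∞ (deriv D) := (contDiff_infty_iff_deriv.1 hDs).2
    have hD'p : ∀ x, deriv D (-x) = deriv D x := by
      intro x
      have h1 : (fun y => D (-y)) = fun y => -D y := funext hDp
      have h2 : deriv (fun y => D (-y)) x = -deriv D (-x) := deriv_comp_neg D x
      rw [h1, deriv.fun_neg] at h2
      linarith
    -- the sine transform of D
    have hsin : ∀ u : ℝ, ∫ v : ℝ, D v * Real.sin (2 * Real.pi * v * u) =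
        -((-1) ^ k * (2 * Real.pi * u) ^ (2 * k + 1) * g u ^ 2) := by
      intro u
      have h1 := congrFun (Real.fourier_iteratedDeriv (N := ⊤) (n := 2 * k + 1) hBsC
        (fun n _ => hint n) le_top) u
      rw [iteratedDeriv_ofReal B hBs, fourier_ofReal _ hDs.continuous hDk u, hFB] at h1
      have h2 := congrArg Complex.im h1
      have h3 : (2 * (Real.pi : ℂ) * Complex.I * (u : ℂ)) ^ (2 * k + 1) =
          (((-1) ^ k * (2 * Real.pi * u) ^ (2 * k + 1) : ℝ) : ℂ) * Complex.I := by
        rw [show (2 * (Real.pi : ℂ) * Complex.I * (u : ℂ)) =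
          ((2 * Real.pi * u : ℝ) : ℂ) * Complex.I by push_cast; ring, mul_pow, pow_succ Complex.I,
          pow_mul Complex.I, Complex.I_sq]
        push_cast
        ring
      rw [h3, smul_eq_mul] at h2
      simp only [Complex.sub_im, Complex.mul_im, Complex.ofReal_re, Complex.ofReal_im,
        Complex.I_re, Complex.I_im, Complex.mul_re, mul_zero, mul_one, zero_add,
        add_zero, zero_sub, sub_zero] at h2
      linarith
    -- the test function
    set c : ℝ := -((-1) ^ k / (2 * Real.pi) ^ (2 * k + 1)) with hcdef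
    have hquot : ∀ x, x * Q 0 (deriv D) x = D x := by
      intro x
      unfold Q
      simp only [pow_zero, one_mul]
      have h1 := intervalIntegral.smul_integral_comp_mul_right (f := deriv D) (a := 0) (b := 1) x
      rw [smul_eq_mul, zero_mul, one_mul] at h1
      rw [h1, intervalIntegral.integral_deriv_eq_sub
        (fun y _ => (hDs.differentiable (by simp)) y)
        (hD's.continuous.intervalIntegrable _ _), hD0, sub_zero]
    refine ⟨fun x => c / (2 * Real.pi) * Q 0 (deriv D) x, ⟨?_, ?_, ?_⟩, ?_⟩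
    · intro n
      exact contDiff_const.mul (contDiff_Q n (deriv D) hD's hDk.deriv 0)
    · intro x
      congr 1
      unfold Q
      simp only [mul_neg, hD'p]
    · refine ⟨1 / 2, by norm_num, by norm_num, fun x hx => ?_⟩
      have hx0 : x ≠ 0 := by
        rintro rfl
        rw [abs_zero] at hx
        linarith
      have h1 : D x = 0 := iteratedDeriv_support B (1 / 4) hBz _ x (by linarith)
      have h2 := hquot x
      rw [h1] at h2
      rcases mul_eq_zero.1 h2 with h3 | h3
      · exact absurd h3 hx0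
      · rw [h3, mul_zero]
    · intro u
      unfold dt
      rw [neg_inj]
      have h1 : ∀ v : ℝ, 2 * Real.pi * v * (c / (2 * Real.pi) * Q 0 (deriv D) v) *
          Real.sin (2 * Real.pi * v * u) = c * (D v * Real.sin (2 * Real.pi * v * u)) := by
        intro v
        rw [← hquot v]
        field_simp
      simp_rw [h1]
      rw [integral_const_mul, hsin, hcdef]
      have h2 : ((-1 : ℝ) ^ k) * (-1) ^ k = 1 := by rw [← mul_pow]; simp
      have h3 : (2 * Real.pi) ^ (2 * k + 1) ≠ 0 := by positivity
      rw [mul_pow (2 * Real.pi) u]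
      field_simp
      linear_combination (u ^ (2 * k + 1) * g u ^ 2) * h2

end Pool.Agent.W613.PR
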